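import Pool.Agent.Helper79.CF.Spec2
import Pool.Agent.Helper24.CF.CMP
import Pool.Agent.Helper22.CF.FLR

/-! Part CMS: membership is computable. -/

set_option autoImplicit false

namespace Pool.Agent.Helper14.CF.CMS

open Pool.Agent.Helper88.EL (num comp_find primrec_prime)
open Pool.Agent.Helper79.CF
open Pool.Agent.Helper24.CF.CMP

theorem comp_num {b : ℕ → Bool} (hb : Computable b) : Computable (num b) := by
  have hbn : Computable fun k => (b k).toNat := Pool.Agent.Helper88.EL.comp_toNat hb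
  have h2 : Computable₂ (fun (_ : ℕ) (p : ℕ × ℕ) => 2 * p.2 + (b p.1).toNat) :=
    Pool.Agent.Helper88.EL.comp_add (Pool.Agent.Helper88.EL.comp_mul (Computable.const 2)
      (Computable.snd.comp Computable.snd)) (hbn.comp (Computable.fst.comp Computable.snd))
  have h : Computable fun a : ℕ => (Nat.rec 0 (fun y IH => 2 * IH + (b y).toNat) a : ℕ) :=
    Computable.nat_rec Computable.id (Computable.const 0) h2
  refine h.of_eq fun n => ?_
  induction n with
  | zero => rfl
  | succ n ih => rw [num, ← ih]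

theorem ex_u {b : ℕ → Bool} {t : ℝ} (hb : Digits b t) (ht : Irrational t) (P : ℕ → ℕ) (n : ℕ) :
    ∃ u, amb P u (num b u) n = false := by
  rcases Nat.eq_zero_or_pos (P n) with h0 | hpos
  · refine ⟨0, ?_⟩
    unfold amb
    rw [h0]
    simp
  have ht0 : 0 ≤ t := by
    have := (hb 0).1
    simpa [num] using this
  have hv : (0 : ℝ) < P n := by exact_mod_cast hpos
  set y : ℝ := (1 + t) * P n with hy
  have hy0 : 0 ≤ y := by positivity
  set q : ℕ := ⌊y⌋₊ with hq
  have hq1 : (q : ℝ) ≤ y := Nat.floor_le hy0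
  have hq2 : y < q + 1 := Nat.lt_floor_add_one y
  have hq3 : (q : ℝ) ≠ y := by
    intro h
    refine ht ⟨(q : ℚ) / (P n : ℚ) - 1, ?_⟩
    push_cast
    rw [h, hy]
    field_simp
    ring
  have hq4 : (q : ℝ) < y := lt_of_le_of_ne hq1 hq3
  set ε : ℝ := min (y - q) (q + 1 - y) with hε
  have hε0 : 0 < ε := lt_min (by linarith) (by linarith)
  obtain ⟨u, hu⟩ := exists_nat_gt ((P n : ℝ) / ε)
  have hu2 : (P n : ℝ) < 2 ^ u * ε := by
    have h1 : (P n : ℝ) < u * ε := by
      rwa [div_lt_iff₀ hε0] at hu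
    have h2 : (u : ℝ) ≤ 2 ^ u := by exact_mod_cast Nat.lt_two_pow_self.le
    nlinarith
  have h2u : (0 : ℝ) < 2 ^ u := by positivity
  have hu3 : (P n : ℝ) < 2 ^ u * (y - q) := hu2.trans_le (by
    have := min_le_left (y - q) (q + 1 - y)
    nlinarith)
  have hu4 : (P n : ℝ) < 2 ^ u * (q + 1 - y) := hu2.trans_le (by
    have := min_le_right (y - q) (q + 1 - y)
    nlinarith)
  obtain ⟨hx1, hx2⟩ := hb u
  refine ⟨u, ?_⟩
  unfold amb
  rw [decide_eq_false_iff_not, not_le]
  set x := num b u with hx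
  set A : ℕ := (2 ^ u + x) * P n with hA
  have hAR : (A : ℝ) = (2 ^ u + x) * P n := by rw [hA]; push_cast; ring
  have lo : (A : ℝ) ≤ 2 ^ u * y := by
    rw [hAR, hy]
    nlinarith
  have hi : 2 ^ u * y ≤ (A : ℝ) + P n := by
    rw [hAR, hy]
    nlinarith
  have hd : q ≤ A / 2 ^ u := by
    rw [Nat.le_div_iff_mul_le (by positivity)]
    have : (q : ℝ) * 2 ^ u ≤ A := by nlinarith
    exact_mod_cast this
  have hdiv : 2 ^ u * (A / 2 ^ u) + A % 2 ^ u = A := Nat.div_add_mod A (2 ^ u)
  have hdivR : (2 : ℝ) ^ u * ((A / 2 ^ u : ℕ) : ℝ) + ((A % 2 ^ u : ℕ) : ℝ) = (A : ℝ) := by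
    exact_mod_cast hdiv
  have hdR : (q : ℝ) ≤ ((A / 2 ^ u : ℕ) : ℝ) := by exact_mod_cast hd
  have hfin : ((A % 2 ^ u : ℕ) : ℝ) + P n < 2 ^ u := by nlinarith
  exact_mod_cast hfin

theorem main : S_CMS := by
  intro b t hb hD ht p hp
  have hnum := comp_num hb
  have hA : Computable₂ fun (k u : ℕ) =>
      !(amb (p k.unpair.1) u (num b u) k.unpair.2) := by
    have h1 : Computable fun z : ℕ × ℕ =>
        amb (p z.1.unpair.1) z.2 (num b z.2) z.1.unpair.2 :=
      comp_amb (α := ℕ × ℕ) (P := fun z => p z.1.unpair.1) (Computable₂.comp hp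
        ((Computable.fst.comp Computable.unpair).comp (Computable.fst.comp Computable.fst))
        Computable.snd) Computable.snd (hnum.comp Computable.snd)
        ((Computable.snd.comp Computable.unpair).comp Computable.fst)
    exact (Primrec.not.to_comp).comp h1
  obtain ⟨F, hF, hFspec⟩ : ∃ F : ℕ → ℕ, Computable F ∧ ∀ k,
      amb (p k.unpair.1) (F k) (num b (F k)) k.unpair.2 = false := by
    have hex : ∀ k : ℕ, ∃ u, (!(amb (p k.unpair.1) u (num b u) k.unpair.2)) = true := fun k => by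
      obtain ⟨u, hu⟩ := ex_u hD ht (p k.unpair.1) k.unpair.2
      exact ⟨u, by rw [hu]; rfl⟩
    refine ⟨fun k => Nat.find (hex k), comp_find hA hex, fun k => ?_⟩
    have h1 := Nat.find_spec (hex k)
    rwa [Bool.not_eq_true'] at h1
  have hFp : Computable fun z : ℕ × ℕ => F (Nat.pair z.1 z.2) :=
    hF.comp (Computable₂.comp Primrec₂.natPair.to_comp Computable.fst Computable.snd)
  refine ⟨fun j n => decide (mv (p j) (F (Nat.pair j n)) (num b (F (Nat.pair j n))) n).Prime,
    ?_, fun j n => ?_⟩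
  · exact primrec_prime.decide.to_comp.comp (comp_mv (α := ℕ × ℕ) (P := fun z => p z.1)
      (Computable₂.comp hp (Computable.fst.comp Computable.fst) Computable.snd) hFp
      (hnum.comp hFp) Computable.snd)
  · have h2 := hFspec (Nat.pair j n)
    simp only [Nat.unpair_pair] at h2
    obtain ⟨hx1, hx2⟩ := hD (F (Nat.pair j n))
    rw [decide_eq_true_eq, Pool.Agent.Helper22.CF.FLR.main (p j) _ _ n t hx1 hx2 h2]

end Pool.Agent.Helper14.CF.CMS
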